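import Pool.Agent.Helper70.TW.Goals

/-!
# Project TW, packet WID: the multinomial expansion of `(s w w' + ρ w² + ρ' w'²)^d`
-/

namespace Pool.Agent.Helper26.TW

open Pool.Agent.Helper70.TW

universe u

/-- `F` is `c (w w')^d` plus off-diagonal monomials. -/
def Ex {L : Type u} [CommRing L] (d : ℕ) (c : L) (F : L → L → L) : Prop :=
  ∃ Cc Cc' : ℕ → L, ∀ w w' : L, F w w' = c * (w * w') ^ d +
    ∑ k ∈ Finset.range d, (Cc k * (w ^ (d + (k + 1)) * w' ^ (d - (k + 1))) +
      Cc' k * (w ^ (d - (k + 1)) * w' ^ (d + (k + 1))))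

theorem Ex.zero {L : Type u} [CommRing L] (d : ℕ) : Ex (L := L) d 0 (fun _ _ => 0) :=
  ⟨fun _ => 0, fun _ => 0, fun w w' => by simp⟩

theorem Ex.add {L : Type u} [CommRing L] {d : ℕ} {c₁ c₂ : L} {F₁ F₂ : L → L → L}
    (h₁ : Ex d c₁ F₁) (h₂ : Ex d c₂ F₂) : Ex d (c₁ + c₂) (fun w w' => F₁ w w' + F₂ w w') := by
  obtain ⟨A₁, B₁, h₁⟩ := h₁
  obtain ⟨A₂, B₂, h₂⟩ := h₂
  refine ⟨fun k => A₁ k + A₂ k, fun k => B₁ k + B₂ k, fun w w' => ?_⟩
  beta_reduce
  rw [h₁, h₂]
  have : ∑ k ∈ Finset.range d, ((A₁ k + A₂ k) * (w ^ (d + (k + 1)) * w' ^ (d - (k + 1))) +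
      (B₁ k + B₂ k) * (w ^ (d - (k + 1)) * w' ^ (d + (k + 1)))) =
      ∑ k ∈ Finset.range d, (A₁ k * (w ^ (d + (k + 1)) * w' ^ (d - (k + 1))) +
        B₁ k * (w ^ (d - (k + 1)) * w' ^ (d + (k + 1)))) +
      ∑ k ∈ Finset.range d, (A₂ k * (w ^ (d + (k + 1)) * w' ^ (d - (k + 1))) +
        B₂ k * (w ^ (d - (k + 1)) * w' ^ (d + (k + 1)))) := by
    rw [← Finset.sum_add_distrib]
    exact Finset.sum_congr rfl fun k _ => by ring
  rw [this]
  ring

theorem Ex.sum {L : Type u} [CommRing L] {d : ℕ} {ι : Type} (s : Finset ι) (c : ι → L)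
    (F : ι → L → L → L) (h : ∀ i ∈ s, Ex d (c i) (F i)) :
    Ex d (∑ i ∈ s, c i) (fun w w' => ∑ i ∈ s, F i w w') := by
  classical
  induction s using Finset.induction_on with
  | empty => simpa using Ex.zero d
  | insert a s ha ih =>
    have h1 := h a (Finset.mem_insert_self a s)
    have h2 := ih fun i hi => h i (Finset.mem_insert_of_mem hi)
    simpa [Finset.sum_insert ha] using h1.add h2

theorem Ex.mono {L : Type u} [CommRing L] {d : ℕ} (x : L) {a b : ℕ} (hab : a + b = 2 * d) :
    Ex d (if a = b then x else 0) (fun w w' => x * (w ^ a * w' ^ b)) := by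
  classical
  rcases lt_trichotomy a b with h | h | h
  · refine ⟨fun _ => 0, fun k => if k = b - d - 1 then x else 0, fun w w' => ?_⟩
    rw [if_neg h.ne, Finset.sum_eq_single (b - d - 1)]
    · beta_reduce
      rw [if_pos rfl, show d - (b - d - 1 + 1) = a by omega,
        show d + (b - d - 1 + 1) = b by omega]
      ring
    · intro k _ hk
      simp [hk]
    · intro hk
      exact absurd (Finset.mem_range.2 (by omega)) hk
  · refine ⟨fun _ => 0, fun _ => 0, fun w w' => ?_⟩
    rw [if_pos h, show a = d by omega, show b = d by omega]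
    simp [mul_pow]
  · refine ⟨fun k => if k = a - d - 1 then x else 0, fun _ => 0, fun w w' => ?_⟩
    rw [if_neg h.ne', Finset.sum_eq_single (a - d - 1)]
    · beta_reduce
      rw [if_pos rfl, show d - (a - d - 1 + 1) = b by omega,
        show d + (a - d - 1 + 1) = a by omega]
      ring
    · intro k _ hk
      simp [hk]
    · intro hk
      exact absurd (Finset.mem_range.2 (by omega)) hk

theorem wid : WID.{u} := by
  classical
  intro L _ s ρ ρ' hρ d
  -- the coefficient of `(n, j)`
  set A : ℕ → ℕ → L := fun n j =>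
    (d.choose n : L) * (n.choose j : L) * (s ^ (d - n) * (ρ ^ j * ρ' ^ (n - j))) with hA
  have key : Ex d (∑ n ∈ Finset.range (d + 1), ∑ j ∈ Finset.range (n + 1),
      (if d - n + 2 * j = d - n + 2 * (n - j) then A n j else 0))
      (fun w w' => ∑ n ∈ Finset.range (d + 1), ∑ j ∈ Finset.range (n + 1),
        A n j * (w ^ (d - n + 2 * j) * w' ^ (d - n + 2 * (n - j)))) := by
    refine Ex.sum _ _ _ fun n hn => Ex.sum _ _ _ fun j hj => Ex.mono _ ?_
    have h1 := Finset.mem_range.1 hn
    have h2 := Finset.mem_range.1 hj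
    omega
  have hc : (∑ n ∈ Finset.range (d + 1), ∑ j ∈ Finset.range (n + 1),
      (if d - n + 2 * j = d - n + 2 * (n - j) then A n j else 0)) =
      ∑ b ∈ Finset.range (d / 2 + 1),
        (d.choose (2 * b) : L) * ((2 * b).choose b : L) * (-1) ^ b * s ^ (d - 2 * b) := by
    have h1 : ∀ n ∈ Finset.range (d + 1), (∑ j ∈ Finset.range (n + 1),
        (if d - n + 2 * j = d - n + 2 * (n - j) then A n j else 0)) =
        if n % 2 = 0 then A n (n / 2) else 0 := by
      intro n _
      by_cases hn : n % 2 = 0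
      · rw [if_pos hn, Finset.sum_eq_single (n / 2)]
        · rw [if_pos (by omega)]
        · intro j hj hne
          have := Finset.mem_range.1 hj
          rw [if_neg (by omega)]
        · intro hj
          exact absurd (Finset.mem_range.2 (by omega)) hj
      · rw [if_neg hn]
        refine Finset.sum_eq_zero fun j hj => ?_
        have := Finset.mem_range.1 hj
        rw [if_neg (by omega)]
    rw [Finset.sum_congr rfl h1, ← Finset.sum_filter]
    symm
    refine Finset.sum_bij (fun b _ => 2 * b) ?_ ?_ ?_ ?_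
    · intro b hb
      have := Finset.mem_range.1 hb
      rw [Finset.mem_filter, Finset.mem_range]
      omega
    · intro b _ b' _ h
      simpa using h
    · intro n hn
      rw [Finset.mem_filter, Finset.mem_range] at hn
      exact ⟨n / 2, Finset.mem_range.2 (by omega), by omega⟩
    · intro b hb
      rw [hA]
      simp only
      rw [show 2 * b / 2 = b by omega, show 2 * b - b = b by omega, ← mul_pow, hρ]
      ring
  rw [hc] at key
  obtain ⟨Cc, Cc', h⟩ := key
  refine ⟨Cc, Cc', fun w w' => ?_⟩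
  rw [← h w w', add_assoc, add_pow, ← Finset.sum_range_reflect]
  refine Finset.sum_congr rfl fun n hn => ?_
  have hn' := Finset.mem_range.1 hn
  rw [show d + 1 - 1 - n = d - n by omega, show d - (d - n) = n by omega, add_pow,
    Finset.mul_sum, Finset.sum_mul]
  refine Finset.sum_congr rfl fun j hj => ?_
  have hj' := Finset.mem_range.1 hj
  rw [hA]
  simp only
  rw [Nat.choose_symm (by omega : n ≤ d)]
  rw [mul_pow, mul_pow, mul_pow, mul_pow, ← pow_mul, ← pow_mul, pow_add, pow_add]
  ring

end Pool.Agent.Helper26.TW
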